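import Mathlib
import Pool.Agent.H57.CP.Targets

/-!
# Module BRD: order of a product of two reflections
-/

namespace Pool.Agent.H57.CP.M86

namespace BRD

lemma mk_comm' (x y : V4) : mk x y = mk y x := by
  unfold mk; ring

lemma mk_add' (x y z : V4) : mk x (y + z) = mk x y + mk x z := by
  unfold mk; simp only [Pi.add_apply]; ring

lemma mk_smul' (c : ℝ) (x y : V4) : mk x (c • y) = c * mk x y := by
  unfold mk; simp only [Pi.smul_apply, smul_eq_mul]; ring

lemma refl_apply' (a x : V4) : refl a x = x + (2 * mk a x) • a := by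
  ext i
  simp [refl]

lemma R_apply (α β : V4) (c : ℝ) (hc : mk α β = c) (x : V4) :
    (refl α * refl β) x = x + (2 * (mk α x + 2 * mk β x * c)) • α + (2 * mk β x) • β := by
  rw [Module.End.mul_apply, refl_apply' β x, refl_apply' α, mk_add', mk_smul', hc]
  ext i
  simp only [Pi.add_apply, Pi.smul_apply, smul_eq_mul]
  ring

lemma alpha_R (α β : V4) (c : ℝ) (hα : mk α α = -1) (hc : mk α β = c) (x : V4) :
    mk α ((refl α * refl β) x) = -mk α x - 2 * c * mk β x := by
  rw [R_apply α β c hc, mk_add', mk_add', mk_smul', mk_smul', hα, hc]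
  ring

lemma beta_R (α β : V4) (c : ℝ) (hβ : mk β β = -1) (hc : mk α β = c) (x : V4) :
    mk β ((refl α * refl β) x) = 2 * c * mk α x + (4 * c ^ 2 - 1) * mk β x := by
  rw [R_apply α β c hc, mk_add', mk_add', mk_smul', mk_smul', hβ, mk_comm' β α, hc]
  ring

lemma seq (f : ℕ → ℝ) (θ : ℝ) (h : ∀ k, f (k + 2) = 2 * Real.cos θ * f (k + 1) - f k) (k : ℕ) :
    Real.sin θ * f k = Real.sin (k * θ) * f 1 - Real.sin ((k - 1) * θ) * f 0 := by
  induction k using Nat.strong_induction_on with
  | _ k ih =>
    match k with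
    | 0 => simp
    | 1 => simp
    | (k + 2) =>
      have h1 := ih k (by omega)
      have h2 := ih (k + 1) (by omega)
      have e1 : Real.sin ((k + 2 : ℝ) * θ) = 2 * Real.cos θ * Real.sin ((k + 1 : ℝ) * θ)
          - Real.sin (k * θ) := by
        have a1 : ((k : ℝ) + 2) * θ = ((k : ℝ) + 1) * θ + θ := by ring
        have a2 : (k : ℝ) * θ = ((k : ℝ) + 1) * θ - θ := by ring
        rw [a1, a2, Real.sin_add, Real.sin_sub]
        ring
      have e2 : Real.sin ((k + 1 : ℝ) * θ) = 2 * Real.cos θ * Real.sin ((k : ℝ) * θ)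
          - Real.sin ((k - 1 : ℝ) * θ) := by
        have a1 : ((k : ℝ) + 1) * θ = (k : ℝ) * θ + θ := by ring
        have a2 : ((k : ℝ) - 1) * θ = (k : ℝ) * θ - θ := by ring
        rw [a1, a2, Real.sin_add, Real.sin_sub]
        ring
      rw [h k, mul_sub, ← mul_assoc, mul_comm (Real.sin θ) (2 * Real.cos θ), mul_assoc, h2, h1]
      push_cast
      have a3 : ((k : ℝ) + 2 - 1) = (k : ℝ) + 1 := by ring
      have a4 : ((k : ℝ) + 1 - 1) = (k : ℝ) := by ring
      rw [a3, a4, e1]
      have e2' : Real.sin ((k - 1 : ℝ) * θ) = 2 * Real.cos θ * Real.sin ((k : ℝ) * θ)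
          - Real.sin ((k + 1 : ℝ) * θ) := by linarith
      rw [e2']
      ring

end BRD

theorem brd : T_BRD := by
  intro α β m hm hα hβ hc
  set c := Real.cos (Real.pi / m) with hcdef
  have hm0 : (0 : ℝ) < m := by
    have : 0 < m := by omega
    exact_mod_cast this
  have hψ0 : 0 < Real.pi / m := by positivity
  have hm2 : (2 : ℝ) ≤ m := by exact_mod_cast hm
  have hψ1 : Real.pi / m ≤ Real.pi / 2 := by
    apply div_le_div_of_nonneg_left Real.pi_pos.le (by norm_num) hm2
  have hsin : 0 < Real.sin (Real.pi / m) := by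
    apply Real.sin_pos_of_pos_of_lt_pi hψ0
    linarith [Real.pi_pos]
  have hc1 : 1 - c ^ 2 ≠ 0 := by
    have := Real.sin_sq_add_cos_sq (Real.pi / m)
    rw [← hcdef] at this
    have : 1 - c ^ 2 = Real.sin (Real.pi / m) ^ 2 := by linarith
    rw [this]
    positivity
  refine LinearMap.ext fun x => ?_
  change ((refl α * refl β) ^ m) x = x
  have hspan : ∀ k : ℕ, ∃ s t : ℝ, ((refl α * refl β) ^ k) x = x + s • α + t • β := by
    intro k
    induction k with
    | zero => exact ⟨0, 0, by simp⟩
    | succ k ih =>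
      obtain ⟨s, t, hst⟩ := ih
      refine ⟨s + 2 * (mk α (((refl α * refl β) ^ k) x)
        + 2 * mk β (((refl α * refl β) ^ k) x) * c),
        t + 2 * mk β (((refl α * refl β) ^ k) x), ?_⟩
      rw [pow_succ', Module.End.mul_apply, BRD.R_apply α β c hc]
      nth_rewrite 1 [hst]
      ext i
      simp only [Pi.add_apply, Pi.smul_apply, smul_eq_mul]
      ring
  -- the two sequences
  have hrec : ∀ k : ℕ, mk α (((refl α * refl β) ^ (k + 1)) x)
      = -mk α (((refl α * refl β) ^ k) x) - 2 * c * mk β (((refl α * refl β) ^ k) x) := by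
    intro k
    rw [pow_succ', Module.End.mul_apply, BRD.alpha_R α β c hα hc]
  have hrec' : ∀ k : ℕ, mk β (((refl α * refl β) ^ (k + 1)) x)
      = 2 * c * mk α (((refl α * refl β) ^ k) x)
        + (4 * c ^ 2 - 1) * mk β (((refl α * refl β) ^ k) x) := by
    intro k
    rw [pow_succ', Module.End.mul_apply, BRD.beta_R α β c hβ hc]
  have hfix : mk α (((refl α * refl β) ^ m) x) = mk α x ∧
      mk β (((refl α * refl β) ^ m) x) = mk β x := by
    rcases Nat.lt_or_ge 2 m with h3 | h3
    · -- m ≥ 3
      have hcos : 2 * Real.cos (2 * (Real.pi / m)) = 4 * c ^ 2 - 2 := by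
        rw [Real.cos_two_mul]
        ring
      have hs2 : Real.sin (2 * (Real.pi / m)) ≠ 0 := by
        apply ne_of_gt
        apply Real.sin_pos_of_pos_of_lt_pi (by positivity)
        have h3' : (3 : ℝ) ≤ m := by exact_mod_cast h3
        rw [← mul_div_assoc, div_lt_iff₀ hm0]
        nlinarith [Real.pi_pos]
      have key : ∀ f : ℕ → ℝ, (∀ k, f (k + 2) = 2 * Real.cos (2 * (Real.pi / m)) * f (k + 1) - f k) →
          f m = f 0 := by
        intro f hf
        have h := BRD.seq f (2 * (Real.pi / m)) hf m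
        have e1 : (m : ℝ) * (2 * (Real.pi / m)) = 2 * Real.pi := by
          field_simp
        have e2 : ((m : ℝ) - 1) * (2 * (Real.pi / m)) = 2 * Real.pi - 2 * (Real.pi / m) := by
          rw [sub_mul, e1]
          ring
        rw [e1, e2, Real.sin_two_pi, Real.sin_two_pi_sub, zero_mul, zero_sub, neg_mul, neg_neg] at h
        exact mul_left_cancel₀ hs2 h
      constructor
      · have h := key (fun k => mk α (((refl α * refl β) ^ k) x)) (by
          intro k
          rw [hcos, hrec (k + 1), hrec' k, hrec k]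
          ring)
        simpa using h
      · have h := key (fun k => mk β (((refl α * refl β) ^ k) x)) (by
          intro k
          rw [hcos, hrec' (k + 1), hrec' k, hrec k]
          ring)
        simpa using h
    · -- m = 2
      have hm' : m = 2 := by omega
      have hc0 : c = 0 := by
        rw [hcdef, hm']
        norm_num
      subst hm'
      constructor
      · rw [hrec 1, hrec 0, hrec' 0, hc0]
        simp
      · rw [hrec' 1, hrec 0, hrec' 0, hc0]
        simp
  obtain ⟨s, t, hst⟩ := hspan m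
  rw [hst] at hfix ⊢
  obtain ⟨h1, h2⟩ := hfix
  rw [BRD.mk_add', BRD.mk_add', BRD.mk_smul', BRD.mk_smul', hα, hc] at h1
  rw [BRD.mk_add', BRD.mk_add', BRD.mk_smul', BRD.mk_smul', hβ, BRD.mk_comm' β α, hc] at h2
  have hs : s = c * t := by linarith
  have ht : (1 - c ^ 2) * t = 0 := by
    rw [hs] at h2
    linear_combination -h2
  have ht0 : t = 0 := by
    rcases mul_eq_zero.mp ht with h | h
    · exact absurd h hc1
    · exact h
  rw [hs, ht0]
  simp

end Pool.Agent.H57.CP.M86
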