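import Mathlib
import Pool.Agent.H57.CP.Targets

/-!
# Module GFN: the deformed groups
-/

namespace Pool.Agent.H57.CP.M86

namespace GFN

lemma h3ext {x y : H3} (h : x.1 = y.1) : x = y := Subtype.ext h

lemma rot_mul (s t d e : ℝ) : rot s d * rot t e = rot (s + t) (d * e) := by
  refine LinearMap.ext fun x => ?_
  rw [Module.End.mul_apply]
  ext i
  fin_cases i
  · simp [rot, Real.cos_add, Real.sin_add]; ring
  · simp [rot, Real.cos_add, Real.sin_add]; ring
  · simp [rot]; ring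
  · simp [rot]

lemma rot_zero : rot 0 1 = 1 := by
  refine LinearMap.ext fun x => ?_
  ext i
  fin_cases i <;> simp [rot]

lemma rot_2pi : rot (2 * Real.pi) 1 = 1 := by
  refine LinearMap.ext fun x => ?_
  ext i
  fin_cases i <;> simp [rot]

lemma rot_pow (t d : ℝ) (k : ℕ) : rot t d ^ k = rot (k * t) (d ^ k) := by
  induction k with
  | zero => simp [rot_zero]
  | succ k ih =>
    rw [pow_succ, ih, rot_mul, pow_succ]
    congr 1
    push_cast
    ring

lemma ext_mul {A B : V4 →ₗ[ℝ] V4} {g h : Equiv.Perm H3} (hA : Ext A g) (hB : Ext B h) :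
    Ext (A * B) (g * h) := by
  intro x
  rw [Module.End.mul_apply, hB, hA]
  rfl

lemma ext_pow {A : V4 →ₗ[ℝ] V4} {g : Equiv.Perm H3} (hA : Ext A g) (k : ℕ) :
    Ext (A ^ k) (g ^ k) := by
  induction k with
  | zero => intro x; rfl
  | succ k ih =>
    rw [pow_succ, pow_succ]
    exact ext_mul ih hA

lemma ext_one {g : Equiv.Perm H3} (h : Ext 1 g) : g = 1 := by
  ext1 x
  exact h3ext (h x).symm

lemma ext_inv {A A' : V4 →ₗ[ℝ] V4} {g : Equiv.Perm H3} (hA : Ext A g) (h : A' * A = 1) :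
    Ext A' g⁻¹ := by
  intro x
  have h1 := hA (g⁻¹ x)
  have h2 : g (g⁻¹ x) = x := by
    rw [← Equiv.Perm.mul_apply, mul_inv_cancel]
    rfl
  rw [h2] at h1
  rw [← h1, ← Module.End.mul_apply, h]
  rfl

lemma iso_of_ext {A : V4 →ₗ[ℝ] V4} {g : Equiv.Perm H3} (hA : Ext A g) (hL : Lor A) :
    IsIso g := by
  intro x y
  unfold ch
  rw [← hA, ← hA, hL.1]

lemma mk_o (a : V4) : mk a o.1 = a 3 := by
  simp [mk, o]

end GFN

open GFN in
theorem gfn (h1 : T_PRT) (h2 : T_LNK) (h3 : T_CNT) (h4 : T_SSQ) (h5 : T_SZO) (h6 : T_LOR)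
    (h7 : T_TRR) (h8 : T_REL) : T_GFN := by
  intro a b hab
  obtain ⟨δ₁, hδ₁, hP⟩ := h1 a b hab
  refine ⟨min δ₁ (Real.pi / 2), lt_min hδ₁ (by positivity), ?_⟩
  intro u w hu hw
  have hu1 : |u| < δ₁ := lt_of_lt_of_le hu (min_le_left _ _)
  have hw1 : |w| < δ₁ := lt_of_lt_of_le hw (min_le_left _ _)
  have hu2 : |u| < Real.pi / 2 := lt_of_lt_of_le hu (min_le_right _ _)
  obtain ⟨hS0, hPR⟩ := hP u w hu1 hw1
  refine ⟨hS0, ?_⟩
  intro S T hS hT
  obtain ⟨haa, hbb, habv⟩ := (h4 a b hab).2.2.2.1 u w hS0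
  obtain ⟨R, hR⟩ := (h3 a b hab).1 u w hS0
  obtain ⟨c, hc, hPc⟩ := hPR R hR
  obtain ⟨σ, hσ⟩ := h8 a b hab
  have hb2 : 2 ≤ b := hab.2.1
  have hb0 : (0 : ℝ) < b := by
    have : 0 < b := by omega
    exact_mod_cast this
  have hlS := h6.1 (Real.pi / b) (-1) (Or.inr rfl)
  have hlT := h6.2.1 (aV a b u w) (bV u w) haa hbb habv
  have hSS' : rot (Real.pi / b) (-1) * rot (-(Real.pi / b)) (-1) = 1 := by
    rw [rot_mul, add_neg_cancel]
    norm_num [rot_zero]
  have hS'S : rot (-(Real.pi / b)) (-1) * rot (Real.pi / b) (-1) = 1 := by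
    rw [rot_mul, neg_add_cancel]
    norm_num [rot_zero]
  have iS : IsIso S := iso_of_ext hS hlS
  have iT : IsIso T := iso_of_ext hT hlT.1
  have hTT : T * T = 1 := by
    apply ext_one
    rw [← hlT.2]
    exact ext_mul hT hT
  have hSq : S ^ (2 * b) = 1 := by
    apply ext_one
    have h := ext_pow hS (2 * b)
    rw [rot_pow] at h
    have e1 : ((2 * b : ℕ) : ℝ) * (Real.pi / b) = 2 * Real.pi := by
      push_cast
      field_simp
    have e2 : (-1 : ℝ) ^ (2 * b) = 1 := by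
      rw [pow_mul]; norm_num
    rwa [e1, e2, rot_2pi] at h
  have hS'ext : Ext (rot (-(Real.pi / b)) (-1)) S⁻¹ := ext_inv hS hS'S
  have hPa : (T * S⁻¹) ^ (2 * a) = 1 := by
    apply ext_one
    rw [← h7 a b u w hab hS0]
    exact ext_pow (ext_mul hT hS'ext) (2 * a)
  have hSo : S o = o := by
    apply h3ext
    rw [← hS]
    ext i
    fin_cases i <;> simp [rot, o]
  have hSko : ∀ k : ℕ, (S ^ k) o = o := by
    intro k
    induction k with
    | zero => rfl
    | succ k ih => rw [pow_succ, Equiv.Perm.mul_apply, hSo, ih]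
  have hcosu : 0 < Real.cos u := by
    apply Real.cos_pos_of_mem_Ioo
    rw [abs_lt] at hu2
    exact hu2
  have ha0 : 0 < (aV a b u w) 0 := by
    simp only [aV, Matrix.cons_val_zero]
    exact mul_pos (Real.sqrt_pos.mpr hS0) hcosu
  have ha3 : 0 < (aV a b u w) 3 := by
    simp only [aV, Matrix.cons_val]
    apply Real.sqrt_pos.mpr
    linarith
  have hb3 : (bV u w) 3 = 0 := by
    simp [bV]
  have ha1 : (aV a b u w) 1 = 0 := by
    simp [aV]
  have hT0 : (T o).1 0 = 2 * (aV a b u w) 3 * (aV a b u w) 0 := by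
    rw [← hT]
    change -(o.1 0) + 2 * mk (aV a b u w) o.1 * (aV a b u w) 0 - 2 * mk (bV u w) o.1 * (bV u w) 0 = _
    rw [mk_o, mk_o, hb3]
    simp [o]
  have hT1 : (T o).1 1 = 0 := by
    rw [← hT]
    change -(o.1 1) + 2 * mk (aV a b u w) o.1 * (aV a b u w) 1 - 2 * mk (bV u w) o.1 * (bV u w) 1 = _
    rw [mk_o, mk_o, hb3, ha1]
    simp [o]
  have hchoo : ∀ x : H3, ch x x = 1 := fun x => x.2.1
  obtain ⟨-, hL2, hL3⟩ := h2 a b S T _ _ _ R hR hSS' hS'S hlT.2 hS hT
  -- elements of the group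
  have hpow : ∀ g ∈ Gr S T, (∃ k : ℕ, g = S ^ k) ∨ 1 + c ≤ ch o (g o) := by
    intro g hg
    obtain ⟨γ, hγ, hγg⟩ := hL2 g hg
    by_cases hk : ∃ k : ℕ, γ = (sm a b 1 * sm a b 2) ^ k
    · left
      obtain ⟨k, rfl⟩ := hk
      refine ⟨k, ?_⟩
      ext1 x
      apply h3ext
      have e1 := hγg x
      rw [(hL3 k x).1] at e1
      exact (congrArg Prod.fst e1).symm
    · right
      push Not at hk
      have e2 := hPc γ hγ hk
      rw [hγg o] at e2
      exact e2
  refine ⟨⟨iS, iT, hSo, rfl, hTT, ?_, by omega, hSq, ?_, ?_, ?_⟩, hPa, ?_⟩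
  · intro h
    have e : (T o).1 0 = 0 := by
      rw [← h]
      simp [o]
    rw [hT0] at e
    have : 0 < 2 * (aV a b u w) 3 * (aV a b u w) 0 := by positivity
    linarith
  · intro k hk0 hkq h
    have e1 := ext_pow hS k (T o)
    rw [h, rot_pow] at e1
    have e2 := congrFun e1 0
    simp only [rot, LinearMap.coe_mk, AddHom.coe_mk, Matrix.cons_val_zero, hT1, mul_zero,
      sub_zero] at e2
    have hpos : 0 < (T o).1 0 := by
      rw [hT0]; positivity
    have hcos : Real.cos (k * (Real.pi / b)) = 1 := by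
      have : (Real.cos (k * (Real.pi / b)) - 1) * (T o).1 0 = 0 := by linarith
      rcases mul_eq_zero.mp this with h | h
      · linarith
      · linarith
    have hk0' : (0 : ℝ) < k := by exact_mod_cast hk0
    have hkq' : (k : ℝ) < 2 * b := by exact_mod_cast hkq
    have hpos2 : 0 < (k : ℝ) * (Real.pi / b) := by positivity
    have hlt2 : (k : ℝ) * (Real.pi / b) < 2 * Real.pi := by
      rw [← mul_div_assoc, div_lt_iff₀ hb0]
      nlinarith [Real.pi_pos]
    rw [Real.cos_eq_one_iff_of_lt_of_lt (by linarith [Real.pi_pos]) hlt2] at hcos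
    linarith
  · intro g hg hgo
    rcases hpow g hg with h | h
    · exact h
    · rw [hgo, hchoo] at h
      linarith
  · refine ⟨c, hc, ?_⟩
    intro g hg hgo
    rcases hpow g hg with ⟨k, rfl⟩ | h
    · exact absurd (hSko k) hgo
    · exact h
  · intro m hm0 hm h
    have hmem : (sm a b 0 * sm a b 1) ^ m ∈ Ev a b := by
      apply Subgroup.pow_mem
      have e : sm a b 0 * sm a b 1 = (sm a b 0 * sm a b 2) * (sm a b 1 * sm a b 2)⁻¹ := by
        have e1 : (sm a b 1)⁻¹ = sm a b 1 := (cm a b).toCoxeterSystem.inv_simple 1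
        rw [mul_inv_rev, ← mul_assoc, mul_assoc (sm a b 0), mul_inv_cancel, mul_one, e1]
      rw [e]
      exact (Ev a b).mul_mem (Subgroup.subset_closure (by simp))
        ((Ev a b).inv_mem (Subgroup.subset_closure (by simp)))
    have e1 := (hL3 m o).2
    rw [h] at e1
    by_cases hk : ∃ k : ℕ, (sm a b 0 * sm a b 1) ^ m = (sm a b 1 * sm a b 2) ^ k
    · obtain ⟨k, hk⟩ := hk
      exact h5 a b σ hab hσ m k hm0 hm hk
    · push Not at hk
      have e2 := hPc _ hmem hk
      rw [e1] at e2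
      have e3 : mk o.1 o.1 = 1 := hchoo o
      change 1 + c ≤ mk o.1 o.1 at e2
      rw [e3] at e2
      linarith

end Pool.Agent.H57.CP.M86
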