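import Mathlib
import Pool.Agent.H57.CP.Targets

/-!
# Module INF: free products
-/

namespace Pool.Agent.H57.CP.M86

namespace INF

lemma h3ext {x y : H3} (h : x.1 = y.1) : x = y := Subtype.ext h

lemma rot_rot (s t : ℝ) (x : V4) : rot s 1 (rot t 1 x) = rot (s + t) 1 x := by
  ext i
  fin_cases i
  · simp [rot, Real.cos_add, Real.sin_add]; ring
  · simp [rot, Real.cos_add, Real.sin_add]; ring
  · simp [rot]
  · simp [rot]

lemma rot_zero (x : V4) : rot 0 1 x = x := by
  ext i
  fin_cases i <;> simp [rot]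

lemma rot_2pi (x : V4) : rot (2 * Real.pi) 1 x = x := by
  ext i
  fin_cases i <;> simp [rot]

lemma pow_ext (t : ℝ) (S : Equiv.Perm H3) (hS : Ext (rot t 1) S) (k : ℕ) (x : H3) :
    ((S ^ k) x).1 = rot (k * t) 1 x.1 := by
  induction k with
  | zero => simp [rot_zero]
  | succ k ih =>
    rw [pow_succ', Equiv.Perm.mul_apply, ← hS, ih, rot_rot]
    congr 2
    push_cast
    ring

/-- normal words -/
def wd (S T : Equiv.Perm H3) (k : ℕ → ℕ) : ℕ → Equiv.Perm H3
  | 0 => 1
  | n + 1 => wd S T k n * S ^ (k n) * T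

lemma wd_congr (S T : Equiv.Perm H3) (k k' : ℕ → ℕ) (n : ℕ) (h : ∀ i < n, k i = k' i) :
    wd S T k n = wd S T k' n := by
  induction n with
  | zero => rfl
  | succ n ih =>
    simp only [wd]
    rw [ih (fun i hi => h i (by omega)), h n (by omega)]

/-- every element of the group is a normal word -/
lemma normal (S T : Equiv.Perm H3) (q : ℕ) (hq : 3 ≤ q) (hSq : S ^ q = 1) (hTT : T * T = 1)
    (g : Equiv.Perm H3) (hg : g ∈ Gr S T) : ∃ (n : ℕ) (k : ℕ → ℕ) (j : ℕ),
      (∀ i, 0 < i → i < n → 0 < k i ∧ k i < q) ∧ g = wd S T k n * S ^ j := by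
  have hTi : T⁻¹ = T := inv_eq_of_mul_eq_one_left hTT
  have hSi : S⁻¹ = S ^ (q - 1) := by
    rw [inv_eq_iff_mul_eq_one, ← pow_succ', Nat.sub_add_cancel (by omega), hSq]
  have hmod : ∀ j, S ^ j = S ^ (j % q) := by
    intro j
    conv_lhs => rw [← Nat.mod_add_div j q, pow_add, pow_mul, hSq, one_pow, mul_one]
  have hT : ∀ (n : ℕ) (k : ℕ → ℕ) (j : ℕ), (∀ i, 0 < i → i < n → 0 < k i ∧ k i < q) →
      ∃ (n' : ℕ) (k' : ℕ → ℕ) (j' : ℕ), (∀ i, 0 < i → i < n' → 0 < k' i ∧ k' i < q) ∧
        wd S T k n * S ^ j * T = wd S T k' n' * S ^ j' := by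
    intro n k j hk
    rcases Nat.eq_zero_or_pos n with hn | hn
    · subst hn
      refine ⟨1, fun _ => j, 0, by intro i h1 h2; omega, ?_⟩
      simp [wd]
    · rcases Nat.eq_zero_or_pos (j % q) with hj | hj
      · obtain ⟨m, rfl⟩ : ∃ m, n = m + 1 := ⟨n - 1, by omega⟩
        refine ⟨m, k, k m, fun i h1 h2 => hk i h1 (by omega), ?_⟩
        rw [hmod j, hj, pow_zero, mul_one]
        simp only [wd]
        rw [mul_assoc _ T T, hTT, mul_one]
      · refine ⟨n + 1, Function.update k n (j % q), 0, ?_, ?_⟩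
        · intro i h1 h2
          by_cases hi : i = n
          · subst hi
            simp only [Function.update_self]
            exact ⟨hj, Nat.mod_lt _ (by omega)⟩
          · rw [Function.update_of_ne hi]
            exact hk i h1 (by omega)
        · simp only [wd, Function.update_self, pow_zero, mul_one]
          rw [← hmod j]
          congr 2
          apply wd_congr
          intro i hi
          rw [Function.update_of_ne (by omega)]
  unfold Gr at hg
  induction hg using Subgroup.closure_induction_right with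
  | one => exact ⟨0, fun _ => 0, 0, by intro i h1 h2; omega, by simp [wd]⟩
  | mul_right x hx y hy ih =>
    obtain ⟨n, k, j, hk, rfl⟩ := ih
    rcases hy with rfl | hy
    · refine ⟨n, k, j + 1, hk, ?_⟩
      rw [pow_succ, mul_assoc]
    · rw [Set.mem_singleton_iff] at hy
      subst hy
      exact hT n k j hk
  | mul_inv_cancel x hx y hy ih =>
    obtain ⟨n, k, j, hk, rfl⟩ := ih
    rcases hy with rfl | hy
    · refine ⟨n, k, j + (q - 1), hk, ?_⟩
      rw [hSi, pow_add, mul_assoc]
    · rw [Set.mem_singleton_iff] at hy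
      subst hy
      rw [hTi]
      exact hT n k j hk

lemma mk_o (a : V4) : mk a o.1 = a 3 := by
  simp [mk, o]

end INF

open INF in
theorem inf (h1 : T_CHN) (h2 : T_CTR) (h3 : T_LOR) : T_INF := by
  intro q a b S T hq haa hbb hab hb3 ha1 ha3 ha0 hlt hS hT
  have hqpos : (0 : ℝ) < q := by
    have : 0 < q := by omega
    exact_mod_cast this
  set θ := 2 * Real.pi / (q : ℝ) with hθ
  have hrot := h3.1 θ 1 (Or.inl rfl)
  have hht := h3.2.1 a b haa hbb hab
  have iS : IsIso S := by
    intro x y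
    unfold ch
    rw [← hS, ← hS, hrot.1]
  have iT : IsIso T := by
    intro x y
    unfold ch
    rw [← hT, ← hT, hht.1.1]
  have hTT : T * T = 1 := by
    ext1 x
    apply h3ext
    change (T (T x)).1 = x.1
    rw [← hT, ← hT]
    have := LinearMap.congr_fun hht.2 x.1
    exact this
  have hSq : S ^ q = 1 := by
    ext1 x
    apply h3ext
    rw [pow_ext θ S hS]
    have : (q : ℝ) * θ = 2 * Real.pi := by
      rw [hθ]; field_simp
    rw [this, rot_2pi]
    rfl
  have hSo : S o = o := by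
    apply h3ext
    rw [← hS]
    ext i
    fin_cases i <;> simp [rot, o]
  have hSko : ∀ k : ℕ, (S ^ k) o = o := by
    intro k
    induction k with
    | zero => rfl
    | succ k ih => rw [pow_succ, Equiv.Perm.mul_apply, hSo, ih]
  have iSk : ∀ k : ℕ, IsIso (S ^ k) := by
    intro k
    induction k with
    | zero => intro x y; rfl
    | succ k ih =>
      intro x y
      rw [pow_succ, Equiv.Perm.mul_apply, Equiv.Perm.mul_apply, ih, iS]
  -- coordinates of T o
  have hTo : (T o).1 = ![2 * a 3 * a 0, 0, 2 * a 3 * a 2, 2 * a 3 ^ 2 - 1] := by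
    rw [← hT]
    ext i
    change -(o.1 i) + 2 * mk a o.1 * a i - 2 * mk b o.1 * b i = _
    rw [mk_o, mk_o, hb3]
    fin_cases i
    · simp [o]
    · simp [o, ha1]
    · simp [o]
    · simp [o]; ring
  have ha3sq : a 3 ^ 2 = 1 + a 0 ^ 2 + a 2 ^ 2 := by
    have := haa
    unfold mk at this
    rw [ha1] at this
    linarith
  have hA : ch o (T o) = 1 + 2 * (a 0 ^ 2 + a 2 ^ 2) := by
    unfold ch
    rw [hTo]
    simp only [mk, o, Matrix.cons_val]
    rw [ha3sq]; ring
  have hC : ∀ k : ℕ, 0 < k → k < q →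
      8 * (a 0 ^ 2 + a 2 ^ 2) < ch (T o) ((S ^ k) (T o)) - 1 := by
    intro k hk0 hkq
    have e1 : ch (T o) ((S ^ k) (T o)) - 1
        = 8 * a 3 ^ 2 * a 0 ^ 2 * Real.sin (k * Real.pi / q) ^ 2 := by
      unfold ch
      rw [pow_ext θ S hS, hTo]
      have e2 : (k : ℝ) * θ = 2 * (k * Real.pi / q) := by
        rw [hθ]; ring
      rw [e2]
      simp only [mk, rot, LinearMap.coe_mk, AddHom.coe_mk, Matrix.cons_val]
      rw [Real.cos_two_mul, Real.sin_sq]
      have h4 : a 2 ^ 2 = a 3 ^ 2 - 1 - a 0 ^ 2 := by linarith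
      linear_combination (-4 * a 3 ^ 2) * h4
    have hsinpos : 0 < Real.sin (Real.pi / q) := by
      apply Real.sin_pos_of_pos_of_lt_pi (by positivity)
      rw [div_lt_iff₀ hqpos]
      have : (3 : ℝ) ≤ q := by exact_mod_cast hq
      nlinarith [Real.pi_pos]
    have hsin : Real.sin (Real.pi / q) ≤ Real.sin (k * Real.pi / q) := by
      have hk1 : (1 : ℝ) ≤ k := by exact_mod_cast hk0
      have hk2 : (k : ℝ) ≤ q - 1 := by
        have : k + 1 ≤ q := hkq
        have h' : ((k + 1 : ℕ) : ℝ) ≤ q := by exact_mod_cast this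
        push_cast at h'
        linarith
      have hq3 : (3 : ℝ) ≤ q := by exact_mod_cast hq
      rcases le_total ((k : ℝ) * Real.pi / q) (Real.pi / 2) with h | h
      · apply Real.sin_le_sin_of_le_of_le_pi_div_two _ h
        · apply div_le_div_of_nonneg_right _ hqpos.le
          nlinarith [Real.pi_pos]
        · have : 0 < Real.pi / q := by positivity
          linarith [Real.pi_pos]
      · rw [← Real.sin_pi_sub ((k : ℝ) * Real.pi / q)]
        apply Real.sin_le_sin_of_le_of_le_pi_div_two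
        · have : 0 < Real.pi / q := by positivity
          linarith [Real.pi_pos]
        · linarith
        · have : Real.pi - k * Real.pi / q = (q - k) * Real.pi / q := by
            field_simp
          rw [this]
          apply div_le_div_of_nonneg_right _ hqpos.le
          nlinarith [Real.pi_pos]
    have hsq : a 0 ^ 2 + a 2 ^ 2 < (a 3 * a 0 * Real.sin (Real.pi / q)) ^ 2 := by
      have h0 : 0 ≤ a 0 ^ 2 + a 2 ^ 2 := by positivity
      calc a 0 ^ 2 + a 2 ^ 2 = Real.sqrt (a 0 ^ 2 + a 2 ^ 2) ^ 2 := (Real.sq_sqrt h0).symm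
        _ < (a 3 * a 0 * Real.sin (Real.pi / q)) ^ 2 := by
            apply pow_lt_pow_left₀ hlt (Real.sqrt_nonneg _) (by norm_num)
    rw [e1]
    have hs2 : Real.sin (Real.pi / q) ^ 2 ≤ Real.sin (k * Real.pi / q) ^ 2 :=
      pow_le_pow_left₀ hsinpos.le hsin 2
    have : (a 3 * a 0 * Real.sin (Real.pi / q)) ^ 2
        ≤ a 3 ^ 2 * a 0 ^ 2 * Real.sin (k * Real.pi / q) ^ 2 := by
      rw [mul_pow, mul_pow]
      exact mul_le_mul_of_nonneg_left hs2 (by positivity)
    nlinarith
  have hApos : 0 < a 0 ^ 2 + a 2 ^ 2 := by positivity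
  have ha31 : 1 < a 3 := by
    nlinarith
  -- the main estimate
  have iwd : ∀ (k : ℕ → ℕ) (n : ℕ), IsIso (wd S T k n) := by
    intro k n
    induction n with
    | zero => intro x y; rfl
    | succ n ih =>
      intro x y
      simp only [wd, Equiv.Perm.mul_apply]
      rw [ih, iSk, iT]
  have hmain : ∀ (k : ℕ → ℕ) (n : ℕ), 0 < n → (∀ i, 0 < i → i < n → 0 < k i ∧ k i < q) →
      a 3 ≤ ch o (wd S T k n o) := by
    intro k n hn hk
    have hstep : ∀ i, ch (wd S T k i o) (wd S T k (i + 1) o) = 1 + 2 * (a 0 ^ 2 + a 2 ^ 2) := by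
      intro i
      simp only [wd, Equiv.Perm.mul_apply]
      rw [iwd, ← hA]
      nth_rewrite 1 [← hSko (k i)]
      exact iSk _ _ _
    have hstep2 : ∀ i, ch (wd S T k i o) (wd S T k (i + 2) o)
        = ch (T o) ((S ^ (k (i + 1))) (T o)) := by
      intro i
      simp only [wd, Equiv.Perm.mul_apply]
      rw [iwd]
      nth_rewrite 1 [← hSko (k i)]
      rw [iSk]
      have h := iT (T o) ((S ^ (k (i + 1))) (T o))
      rw [← h]
      congr 1
      exact (Equiv.Perm.ext_iff.mp hTT o).symm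
    have h := h1 n (fun i => wd S T k i o) hn (by
      intro i _
      rw [hstep]
      linarith) (by
      intro i hi
      rw [hstep, hstep, hstep2]
      obtain ⟨hk1, hk2⟩ := hk (i + 1) (by omega) (by omega)
      have h5 := hC _ hk1 hk2
      have e : 1 + 2 * (a 0 ^ 2 + a 2 ^ 2) - 1 = 2 * (a 0 ^ 2 + a 2 ^ 2) := by ring
      rw [e]
      have e2 : Real.sqrt (2 * (a 0 ^ 2 + a 2 ^ 2)) + Real.sqrt (2 * (a 0 ^ 2 + a 2 ^ 2))
          = Real.sqrt (8 * (a 0 ^ 2 + a 2 ^ 2)) := by
        have : (8 : ℝ) * (a 0 ^ 2 + a 2 ^ 2) = 2 ^ 2 * (2 * (a 0 ^ 2 + a 2 ^ 2)) := by ring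
        rw [this, Real.sqrt_mul (by norm_num : (0 : ℝ) ≤ 2 ^ 2) (2 * (a 0 ^ 2 + a 2 ^ 2)),
          Real.sqrt_sq (by norm_num)]
        ring
      rw [e2]
      exact Real.sqrt_lt_sqrt (by positivity) h5)
    rw [hstep 0] at h
    change 1 + 2 * (a 0 ^ 2 + a 2 ^ 2) + 1 ≤ 2 * ch o (wd S T k n o) ^ 2 at h
    have h6 : (a 3) ^ 2 ≤ ch o (wd S T k n o) ^ 2 := by
      rw [ha3sq]; linarith
    have h7 := (h2 o (wd S T k n o) o).1
    exact (pow_le_pow_iff_left₀ ha3.le (by linarith) (by norm_num)).mp h6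
  have hchoo : ∀ x : H3, ch x x = 1 := fun x => x.2.1
  have hwo : ∀ (k : ℕ → ℕ) (n j : ℕ), (wd S T k n * S ^ j) o = wd S T k n o := by
    intro k n j
    rw [Equiv.Perm.mul_apply, hSko]
  refine ⟨⟨iS, iT, hSo, rfl, hTT, ?_, hq, hSq, ?_, ?_, ?_⟩, ?_⟩
  · intro h
    have := hchoo o
    nth_rewrite 2 [h] at this
    rw [hA] at this
    linarith
  · intro k hk0 hkq h
    have h5 := hC k hk0 hkq
    rw [h, hchoo] at h5
    linarith
  · intro g hg hgo
    obtain ⟨n, k, j, hk, rfl⟩ := normal S T q hq hSq hTT g hg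
    rcases Nat.eq_zero_or_pos n with hn | hn
    · subst hn
      exact ⟨j, by simp [wd]⟩
    · exfalso
      have h5 := hmain k n hn hk
      rw [hwo] at hgo
      rw [hgo, hchoo] at h5
      linarith
  · refine ⟨a 3 - 1, by linarith, ?_⟩
    intro g hg hgo
    obtain ⟨n, k, j, hk, rfl⟩ := normal S T q hq hSq hTT g hg
    rcases Nat.eq_zero_or_pos n with hn | hn
    · subst hn
      exfalso
      apply hgo
      rw [hwo]
      rfl
    · have h5 := hmain k n hn hk
      rw [hwo]
      linarith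
  · intro m hm h
    have hSi : S⁻¹ = S ^ (q - 1) := by
      rw [inv_eq_iff_mul_eq_one, ← pow_succ', Nat.sub_add_cancel (by omega), hSq]
    have hP : ∀ m : ℕ, (T * S⁻¹) ^ (m + 1)
        = wd S T (fun i => if i = 0 then 0 else q - 1) (m + 1) * S ^ (q - 1) := by
      intro m
      induction m with
      | zero => simp [wd, hSi]
      | succ m ih =>
        have e : wd S T (fun i => if i = 0 then 0 else q - 1) (m + 1 + 1)
            = wd S T (fun i => if i = 0 then 0 else q - 1) (m + 1) * S ^ (q - 1) * T := rfl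
        rw [pow_succ, ih, e, hSi]
        simp only [mul_assoc]
    obtain ⟨m', rfl⟩ : ∃ m', m = m' + 1 := ⟨m - 1, by omega⟩
    rw [hP m', hwo] at h
    have h5 := hmain (fun i => if i = 0 then 0 else q - 1) (m' + 1) (by omega) (by
      intro i hi _
      simp only [if_neg (by omega : ¬ i = 0)]
      omega)
    rw [h, hchoo] at h5
    linarith

end Pool.Agent.H57.CP.M86
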